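import Pool.Agent.Y677.RSZ.Fin
import Pool.Agent.Y833.RSZ.LOC
import Pool.Agent.R498.MP.PA13

/-!
# Progressions in dense sets of arguments at which all slots are rough
-/

set_option autoImplicit false

namespace Pool.Agent.V8H34.PR

open Finset Filter Polynomial
open Pool.Agent.TH423.SH (PS)
open Pool.Agent.Y677.RSZ
open Pool.Agent.R498.MT
open Pool.Agent.W123.RU.Poly (eval_bound)

open Classical in
/-- most elements of a dense set of arguments with rough values start a progression in the set -/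
theorem dense_prog (G : ℤ[X]) (hG0 : G ≠ 0) (hG : ∀ p : ℕ, p.Prime → ∃ n : ℤ, ¬ (p : ℤ) ∣ G.eval n)
    (δ κ : ℝ) (hδ : 0 < δ) (hκ : 0 < κ) (l : ℕ) (hl : 2 ≤ l) (Cb : ℕ) :
    ∃ B L₀ : ℕ, ∀ M L : ℕ, L₀ ≤ L → L₀ ≤ M → M ≤ Cb * L → ∀ A : Finset ℕ, A ⊆ Ioc M (M + L) →
      (∀ n ∈ A, ∀ p : ℕ, p.Prime → (p : ℝ) ≤ (L : ℝ) ^ δ → ¬ (p : ℤ) ∣ G.eval (n : ℤ)) →
      κ * (L * V (fun n => G.eval n) 1 L) ≤ A.card →
      ∃ T ⊆ A, (A.card : ℝ) ≤ 2 * T.card ∧
        ∀ a ∈ T, ∃ d : ℕ, 1 ≤ d ∧ (d : ℝ) ≤ Real.log L ^ B ∧ ∀ i < l, a + i * d ∈ A := by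
  obtain ⟨g₀, hg₀⟩ := poly_all G hG0 hG
  obtain ⟨K, D, hKD⟩ := eval_bound G
  obtain ⟨n₀, hn₀⟩ := ne_zero_ev G hG0
  obtain ⟨B, H₀, hB⟩ := eng_all l (g₀ + D + 1) δ (κ / 2) hl hδ (by positivity)
  refine ⟨B, H₀ + n₀ + K * (Cb + 2) ^ D + 2, ?_⟩
  intro M L hL hM hML A hA hAr hAc
  obtain ⟨T, hT⟩ : ∃ T, T = A.filter (fun a => ∃ d : ℕ, 1 ≤ d ∧ (d : ℝ) ≤ Real.log L ^ B ∧
    ∀ i < l, a + i * d ∈ A) := ⟨_, rfl⟩
  refine ⟨T, by rw [hT]; exact filter_subset _ _, ?_, ?_⟩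
  · by_contra hcon
    push Not at hcon
    have hTA : T ⊆ A := by rw [hT]; exact filter_subset _ _
    obtain ⟨S, hS⟩ : ∃ S, S = A \ T := ⟨_, rfl⟩
    have hSc : (S.card : ℝ) = A.card - T.card := by
      rw [hS, card_sdiff_of_subset hTA, Nat.cast_sub (card_le_card hTA)]
    have hSA : S ⊆ A := by rw [hS]; exact sdiff_subset
    have hL1 : 2 ≤ L := by omega
    have hLr : (2 : ℝ) ≤ L := by exact_mod_cast hL1
    obtain ⟨u, d, hd1, hd2, hud⟩ := hB (fun n => G.eval n) M L S (hg₀.mono (by omega)) (by omega)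
      (by
        intro n hn
        rw [mem_Ioc] at hn
        refine ⟨hn₀ n (by omega), ?_⟩
        have h1 := hKD (n : ℤ)
        have h2 : |((n : ℤ) : ℝ)| = (n : ℝ) := by
          rw [Int.cast_natCast, abs_of_nonneg (Nat.cast_nonneg n)]
        rw [h2] at h1
        have h3 : 1 + (n : ℝ) ≤ (Cb + 2) * L := by
          have h31 : 1 + n ≤ (Cb + 2) * L := by
            have : (Cb + 2) * L = Cb * L + L + L := by ring
            omega
          exact_mod_cast h31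
        have h4 : (K : ℝ) * (1 + (n : ℝ)) ^ D ≤ (L : ℝ) ^ (D + 1) := by
          calc (K : ℝ) * (1 + (n : ℝ)) ^ D ≤ K * ((Cb + 2) * L) ^ D := by gcongr
            _ = (K * (Cb + 2) ^ D : ℝ) * (L : ℝ) ^ D := by rw [mul_pow]; ring
            _ ≤ L * (L : ℝ) ^ D := by
                gcongr
                have h41 : K * (Cb + 2) ^ D ≤ L := by omega
                exact_mod_cast h41
            _ = _ := by rw [pow_succ]; ring
        have h5 : (L : ℝ) ^ (D + 1) ≤ (L : ℝ) ^ (g₀ + D + 1) :=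
          pow_le_pow_right₀ (by linarith) (by omega)
        have h6 : |((G.eval (n : ℤ) : ℤ) : ℝ)| ≤ (L : ℝ) ^ (g₀ + D + 1) := h1.trans (h4.trans h5)
        exact_mod_cast h6)
      (hSA.trans hA) (fun n hn => hAr n (hSA hn)) (by
        rw [hSc]
        have e : κ / 2 * (L * V (fun n => G.eval n) 1 L) = (κ * (L * V (fun n => G.eval n) 1 L)) / 2 := by
          ring
        rw [e]
        linarith)
    have h0 := hud 0 (by omega)
    rw [zero_mul, add_zero] at h0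
    rw [hS, Finset.mem_sdiff] at h0
    apply h0.2
    rw [hT, mem_filter]
    exact ⟨h0.1, d, hd1, hd2, fun i hi => hSA (hud i hi)⟩
  · intro a ha
    rw [hT, mem_filter] at ha
    exact ha.2

/-- the product of the slots -/
noncomputable def GG (P : ℤ[X]) (W b : ℕ) {n : ℕ} (t : Fin n → ℕ) : ℤ[X] :=
  ∏ i, P.comp (C (W : ℤ) * X + C ((W * t i + b : ℕ) : ℤ))

theorem GG_eval (P : ℤ[X]) (W b : ℕ) {n : ℕ} (t : Fin n → ℕ) (K : ℕ) :
    (GG P W b t).eval (K : ℤ) = ∏ i, P.eval ((W * (K + t i) + b : ℕ) : ℤ) := by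
  unfold GG
  rw [eval_prod]
  apply prod_congr rfl
  intro i _
  rw [eval_comp]
  congr 1
  simp only [eval_add, eval_mul, eval_C, eval_X]
  push_cast
  ring

theorem GG_dvd (P : ℤ[X]) (W b : ℕ) {n : ℕ} (t : Fin n → ℕ) (K p : ℕ) (hp : p.Prime) :
    (p : ℤ) ∣ (GG P W b t).eval (K : ℤ) ↔ ∃ i, (p : ℤ) ∣ P.eval ((W * (K + t i) + b : ℕ) : ℤ) := by
  rw [GG_eval]
  have hp' : Prime (p : ℤ) := Nat.prime_iff_prime_int.1 hp
  rw [hp'.dvd_finsetProd_iff]
  simp

theorem GG_ne (P : ℤ[X]) (hP : P ≠ 0) (W b : ℕ) (hW : 0 < W) {n : ℕ} (t : Fin n → ℕ) :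
    GG P W b t ≠ 0 := by
  unfold GG
  rw [Finset.prod_ne_zero_iff]
  intro i _ h0
  rw [comp_eq_zero_iff] at h0
  rcases h0 with h0 | ⟨-, h0⟩
  · exact hP h0
  · have h1 := congrArg (fun Q : ℤ[X] => Q.coeff 1) h0
    simp at h1
    omega

open Classical in
theorem GG_rt (P : ℤ[X]) (W b : ℕ) {n : ℕ} (t : Fin n → ℕ) (p : ℕ) (hp : p.Prime) :
    rt (fun x => (GG P W b t).eval x) p = rhoT (fun x => P.eval x) W b t p := by
  unfold rt rhoT
  exact Pool.Agent.Y833.RSZ.card_filter_eq fun r _ => GG_dvd P W b t r p hp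

/-- the sieve product of all primes is at most the one of the presieve -/
theorem V_le (P : ℤ[X]) (W b z L : ℕ) (hzL : z ≤ L) {n : ℕ} (t : Fin n → ℕ) :
    V (fun x => (GG P W b t).eval x) 1 L ≤ Vp (fun x => P.eval x) W b z t := by
  classical
  unfold V Vp
  have hsub : PS W z ⊆ PS 1 L := by
    intro p hp
    unfold PS at hp ⊢
    simp only [mem_filter, mem_Icc] at hp ⊢
    exact ⟨⟨hp.1.1, hp.1.2.trans hzL⟩, hp.2.1, fun h => hp.2.1.one_lt.ne' (Nat.dvd_one.1 h)⟩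
  have hpr : ∀ p ∈ PS 1 L, p.Prime := by
    intro p hp
    unfold PS at hp
    exact (mem_filter.1 hp).2.1
  have hf : ∀ p ∈ PS 1 L, 0 ≤ 1 - (rt (fun x => (GG P W b t).eval x) p : ℝ) / p ∧
      1 - (rt (fun x => (GG P W b t).eval x) p : ℝ) / p ≤ 1 := by
    intro p hp
    have hp0 : (0 : ℝ) < p := by exact_mod_cast (hpr p hp).pos
    have h1 : rt (fun x => (GG P W b t).eval x) p ≤ p := by
      unfold rt
      refine (card_filter_le _ _).trans ?_
      rw [card_range]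
    have h2 : (rt (fun x => (GG P W b t).eval x) p : ℝ) ≤ p := by exact_mod_cast h1
    constructor
    · rw [sub_nonneg, div_le_one hp0]
      exact h2
    · have : 0 ≤ (rt (fun x => (GG P W b t).eval x) p : ℝ) / p := by positivity
      linarith
  rw [← Finset.prod_sdiff hsub]
  have h1 : ∏ p ∈ PS 1 L \ PS W z, (1 - (rt (fun x => (GG P W b t).eval x) p : ℝ) / p) ≤ 1 :=
    Finset.prod_le_one (fun p hp => (hf p (Finset.mem_sdiff.1 hp).1).1) (fun p hp => (hf p (Finset.mem_sdiff.1 hp).1).2)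
  have h2 : 0 ≤ ∏ p ∈ PS W z, (1 - (rt (fun x => (GG P W b t).eval x) p : ℝ) / p) :=
    Finset.prod_nonneg (fun p hp => (hf p (hsub hp)).1)
  have h3 : ∏ p ∈ PS W z, (1 - (rt (fun x => (GG P W b t).eval x) p : ℝ) / p) =
      ∏ p ∈ PS W z, (1 - (rhoT (fun x => P.eval x) W b t p : ℝ) / p) := by
    apply prod_congr rfl
    intro p hp
    rw [GG_rt P W b t p (hpr p (hsub hp))]
  calc _ ≤ 1 * ∏ p ∈ PS W z, (1 - (rt (fun x => (GG P W b t).eval x) p : ℝ) / p) :=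
        mul_le_mul_of_nonneg_right h1 h2
    _ = _ := by rw [one_mul, h3]

/-- no fixed prime divisor -/
theorem GG_adm (P : ℤ[X]) (g : ℕ) (hF : Sys g (fun n => P.eval n)) (W b : ℕ) {n : ℕ} (t : Fin n → ℕ)
    (hWp : ∀ p : ℕ, p.Prime → p ≤ g * n → p ∣ W)
    (hb : ∀ p : ℕ, p.Prime → p ∣ W → ¬ (p : ℤ) ∣ P.eval (b : ℤ)) (p : ℕ) (hp : p.Prime) :
    ∃ x : ℤ, ¬ (p : ℤ) ∣ (GG P W b t).eval x := by
  classical
  by_cases hpW : p ∣ W
  · refine ⟨((0 : ℕ) : ℤ), fun h => ?_⟩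
    obtain ⟨i, hi⟩ := (GG_dvd P W b t 0 p hp).1 h
    apply hb p hp hpW
    refine (per_mod (F := fun n => P.eval n) hF.per hp b (W * (0 + t i) + b) ?_).2 hi
    have h1 : 0 ≡ W * (0 + t i) [MOD p] := ((Nat.modEq_zero_iff_dvd).2 (hpW.mul_right _)).symm
    have h2 := h1.add_right b
    simpa using h2
  · have h1 := Pool.Agent.Y833.RSZ.rhoT_le (F := fun n => P.eval n) hp (hF.per p hp) W b t hpW
    have h2 := (hF.root p hp).1
    have h3 : rhoT (fun n => P.eval n) W b t p < p := by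
      have h4 : n * rt (fun n => P.eval n) p ≤ n * g := Nat.mul_le_mul_left _ h2
      by_contra hcon
      push Not at hcon
      exact hpW (hWp p hp (by rw [mul_comm]; omega))
    by_contra hcon
    push Not at hcon
    have h5 : rhoT (fun n => P.eval n) W b t p = p := by
      rw [← GG_rt P W b t p hp]
      unfold rt
      rw [filter_true_of_mem, card_range]
      intro r _
      exact hcon r
    omega

end Pool.Agent.V8H34.PR
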