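import Pool.Agent.V8H2.MQ.Count
import Pool.Agent.V8H34.PR.Runs2

set_option autoImplicit false

/-!
# Progressions of strings of consecutive primes, with prescribed indices
-/

namespace Pool.Agent.V8H34.PR

open Finset Filter Polynomial
open Pool.Agent.Y677.RSZ
open Pool.Agent.R498.MT
open Pool.Agent.R498.MP
open Pool.Agent.V8H2.MQ

/-- strings of consecutive primes of one colour in progressions, at which `f` is almost prime -/
theorem strings_prog (f : ℤ[X]) (hz : ∀ n : ℤ, n ≠ 0 → f.eval n ≠ 0)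
    (hadm : ∀ p : ℕ, p.Prime → ∃ n : ℤ, ¬ (p : ℤ) ∣ n * f.eval n)
    (q a : ℕ) (hq : 0 < q)
    (ha : ∀ p : ℕ, p.Prime → p ∣ q → ¬ (p : ℤ) ∣ (a : ℤ) * f.eval (a : ℤ)) (m : ℕ) :
    ∃ (K r : ℕ) (δ : ℝ), 0 < δ ∧ ∀ l u : ℕ, 2 ≤ l → 1 ≤ u → ∃ B : ℕ, ∀ᶠ N : ℕ in atTop,
      ∀ χ : ℕ → Fin u, ∃ H ⊆ Finset.range K, m < H.card ∧
      ∃ (A T : Finset ℕ) (cc : Fin u), (∀ n ∈ A, χ n = cc) ∧
        (N : ℝ) / Real.log N ^ B ≤ T.card ∧
        (∀ n ∈ T, ∃ D : ℕ, 1 ≤ D ∧ (D : ℝ) ≤ Real.log N ^ B ∧ ∀ i < l, n + i * D ∈ A) ∧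
        ∀ n ∈ A, N < n ∧ n + K ≤ 2 * N ∧
        (∀ y ≤ K, (n + y).Prime ↔ y ∈ H) ∧
        ∀ h ∈ H, n + h ≡ a [MOD q] ∧ AP r ((N : ℝ) ^ δ) (f.eval ((n + h : ℕ) : ℤ)) := by
  classical
  have hf : f ≠ 0 := by
    intro h
    apply hz 1 one_ne_zero
    rw [h, eval_zero]
  have hP : (X * f : ℤ[X]) ≠ 0 := mul_ne_zero X_ne_zero hf
  have hev : ∀ n : ℤ, (X * f : ℤ[X]).eval n = n * f.eval n := fun n => by
    rw [eval_mul, eval_X]
  obtain ⟨g, hg⟩ := poly_all (X * f) hP (fun p hp => by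
    obtain ⟨n, hn⟩ := hadm p hp
    exact ⟨n, by rwa [hev]⟩)
  obtain ⟨K, δ, hδ, hmain⟩ := runs_prog_col (X * f) (g + q + 1) (by omega)
    (Pool.Agent.Y677.RSZ.Sys.mono hg (by omega)) (fun p _ n hd => by
      rw [hev]
      exact hd.mul_right _) q a hq (fun p hp hpq => by
      rw [hev]
      exact ha p hp hpq) m
  obtain ⟨Kf, D, hKD⟩ := Pool.Agent.W123.RU.Poly.eval_bound f
  obtain ⟨n₀, hn₀⟩ := Pool.Agent.Y677.RSZ.ne_zero_ev f hf
  obtain ⟨r, hr⟩ := exists_nat_ge ((2 * D + 1 : ℝ) / δ)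
  refine ⟨K, r, δ, hδ, ?_⟩
  intro l u hl hu
  obtain ⟨B, hB⟩ := hmain (Finset.range K) (by rw [card_range]) (Finset.range (K + 1)) (by
    intro h _ y _ hyh
    rw [hev]
    have h1 : (h : ℤ) - y ≠ 0 := by
      intro h2
      apply hyh
      have : (h : ℤ) = y := by linarith
      exact_mod_cast this.symm
    exact mul_ne_zero h1 (hz _ h1)) K l u hl hu
  refine ⟨B, ?_⟩
  filter_upwards [hB, eventually_ge_atTop (Kf + n₀ + 3)] with N hN hNK χ
  obtain ⟨H, hH, hHm, A, T, cc, hcc, hT1, hT2, hA2⟩ := hN χ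
  refine ⟨H, hH, hHm, A, T, cc, hcc, hT1, hT2, fun n hn => ?_⟩
  obtain ⟨g1, g2, g3, g4, g5⟩ := hA2 n hn
  refine ⟨g1, g2, fun y hy => ⟨fun hp => ?_, fun hyH => (g3 y hyH).1⟩, fun h hh => ⟨(g3 h hh).2, ?_⟩⟩
  · by_contra hcon
    exact g5 y (Finset.mem_range.2 (by omega)) hcon hp
  · have h9' : ∀ p : ℕ, p.Prime → (p : ℤ) ∣ f.eval ((n + h : ℕ) : ℤ) → (N : ℝ) ^ δ ≤ p := by
      intro p hp hpd
      apply g4 h hh p hp
      rw [hev]
      exact hpd.mul_left _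
    have hhK : h < K := Finset.mem_range.1 (hH hh)
    have hx : n + h ≤ 2 * N := by omega
    have hNr : (3 : ℝ) ≤ N := by
      have : 3 ≤ N := by omega
      exact_mod_cast this
    have hKr : (Kf : ℝ) ≤ N := by
      have : Kf ≤ N := by omega
      exact_mod_cast this
    have hxr : ((n + h : ℕ) : ℝ) ≤ 2 * N := by exact_mod_cast hx
    have h8 := hKD ((n + h : ℕ) : ℤ)
    have h9 : ((f.eval ((n + h : ℕ) : ℤ)).natAbs : ℝ) =
        |((f.eval ((n + h : ℕ) : ℤ) : ℤ) : ℝ)| := by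
      rw [← Int.cast_abs, Int.abs_eq_natAbs]
      simp
    have h10 : ((f.eval ((n + h : ℕ) : ℤ)).natAbs : ℝ) ≤
        (N : ℝ) ^ ((2 * D + 1 : ℕ) : ℝ) := by
      rw [h9]
      refine h8.trans ?_
      rw [Real.rpow_natCast, pow_succ, pow_mul, mul_comm]
      have h11 : 1 + |(((n + h : ℕ) : ℤ) : ℝ)| ≤ (N : ℝ) ^ 2 := by
        rw [Int.cast_natCast, abs_of_nonneg (Nat.cast_nonneg _)]
        nlinarith
      have h12 : (0 : ℝ) ≤ 1 + |(((n + h : ℕ) : ℤ) : ℝ)| := by positivity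
      gcongr
    have hne : f.eval ((n + h : ℕ) : ℤ) ≠ 0 := hz _ (by
      have : 0 < n + h := by omega
      exact_mod_cast this.ne')
    have h13 := Pool.Agent.R498.MT.omega_le N (f.eval ((n + h : ℕ) : ℤ)).natAbs δ
      ((2 * D + 1 : ℕ) : ℝ) (by omega) hδ (by
        rw [Int.natAbs_ne_zero]
        exact hne) (fun p hp hpd => h9' p hp (Int.natCast_dvd.2 hpd)) h10
    have h14 : ((2 * D + 1 : ℕ) : ℝ) / δ ≤ r := by
      push_cast
      exact hr
    exact ⟨hne, by exact_mod_cast h13.trans h14, h9'⟩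

/-- the prime number `Nat.count n + j` is `n + e j`, if the primes of `[n, n + C]` are the `n + h`, `h ∈ H` -/
theorem nth_eq (n C : ℕ) (H : Finset ℕ) (hHC : ∀ h ∈ H, h ≤ C)
    (hH : ∀ y ≤ C, (n + y).Prime ↔ y ∈ H) (j : ℕ) (hj : j < H.card) :
    Nat.nth Nat.Prime (Nat.count Nat.Prime n + j) = n + H.orderEmbOfFin rfl ⟨j, hj⟩ := by
  have hinf := Nat.infinite_setOfPred_prime
  obtain ⟨e, he⟩ : ∃ e : Fin H.card ↪o ℕ, e = H.orderEmbOfFin rfl := ⟨_, rfl⟩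
  rw [← he]
  have heH : ∀ i, e i ∈ H := by
    intro i
    rw [he]
    exact Finset.orderEmbOfFin_mem H rfl i
  have hsur : ∀ h ∈ H, ∃ i, e i = h := by
    intro h hh
    have : h ∈ Set.range e := by
      rw [he, Finset.range_orderEmbOfFin]
      exact hh
    exact this
  have hp : (n + e ⟨j, hj⟩).Prime := (hH _ (hHC _ (heH _))).2 (heH _)
  have hcount : Nat.count Nat.Prime (n + e ⟨j, hj⟩) = Nat.count Nat.Prime n + j := by
    rw [Nat.count_add]
    congr 1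
    rw [Nat.count_eq_card_filter_range]
    have h1 : (Finset.range (e ⟨j, hj⟩)).filter (fun y => (n + y).Prime) =
        (univ.filter (fun i : Fin H.card => i < ⟨j, hj⟩)).image e := by
      ext y
      simp only [mem_filter, mem_range, mem_image, mem_univ, true_and]
      constructor
      · rintro ⟨h2, h3⟩
        have h4 : y ≤ C := h2.le.trans (hHC _ (heH _))
        obtain ⟨i, hi⟩ := hsur y ((hH y h4).1 h3)
        refine ⟨i, ?_, hi⟩
        rw [← e.lt_iff_lt, hi]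
        exact h2
      · rintro ⟨i, hi, rfl⟩
        exact ⟨e.strictMono hi, (hH _ (hHC _ (heH _))).2 (heH _)⟩
    rw [h1, card_image_of_injective _ e.injective]
    have h5 : (univ.filter (fun i : Fin H.card => i < ⟨j, hj⟩)) = Finset.Iio ⟨j, hj⟩ := by
      ext i
      simp
    rw [h5, Fin.card_Iio]
  rw [← hcount]
  exact Nat.nth_count hp

/-- **Progressions of strings of primes with consecutive indices in a residue class.** -/
theorem index_prog (f : ℤ[X]) (hz : ∀ n : ℤ, n ≠ 0 → f.eval n ≠ 0)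
    (hadm : ∀ p : ℕ, p.Prime → ∃ n : ℤ, ¬ (p : ℤ) ∣ n * f.eval n)
    (q e : ℕ) (hq : 0 < q)
    (he : ∀ p : ℕ, p.Prime → p ∣ q → ¬ (p : ℤ) ∣ (e : ℤ) * f.eval (e : ℤ))
    (u r : ℕ) (hu : 1 ≤ u) :
    ∃ (C R : ℕ) (δ : ℝ), 0 < δ ∧ ∀ a l : ℕ, ∃ B : ℕ, ∀ᶠ N : ℕ in atTop,
      ∃ (h : ℕ → ℕ) (T : Finset ℕ), h 0 = 0 ∧ (∀ j < r, h j < h (j + 1)) ∧ h r ≤ C ∧
      (N : ℝ) / Real.log N ^ B ≤ T.card ∧ ∀ s ∈ T, ∃ D : ℕ, 1 ≤ D ∧ (D : ℝ) ≤ Real.log N ^ B ∧
        ∀ i < l, ∃ k : ℕ, ∀ j ≤ r, Nat.nth Nat.Prime (u * (k + j) + a) = s + i * D + h j ∧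
          N < s + i * D + h j ∧ s + i * D + h j ≤ 2 * N ∧ s + i * D + h j ≡ e [MOD q] ∧
          AP R ((N : ℝ) ^ δ) (f.eval ((s + i * D + h j : ℕ) : ℤ)) := by
  classical
  obtain ⟨C, R, δ, hδ, hmain⟩ := strings_prog f hz hadm q e hq he (u * (r + 2))
  refine ⟨C, R, δ, hδ, fun a l => ?_⟩
  obtain ⟨B, hB⟩ := hmain (l + 2) u (by omega) hu
  refine ⟨B, ?_⟩
  have hinf := Nat.infinite_setOfPred_prime
  filter_upwards [hB, eventually_ge_atTop (Nat.nth Nat.Prime (a + u))] with N hN hN3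
  obtain ⟨H, hH, hHm, A, T, cc, hcc, hT1, hT2, hA2⟩ :=
    hN (fun n => ⟨Nat.count Nat.Prime n % u, Nat.mod_lt _ hu⟩)
  have hHC : ∀ h ∈ H, h ≤ C := fun h hh => (Finset.mem_range.1 (hH hh)).le
  obtain ⟨ρ, hρ⟩ : ∃ ρ : ℕ, ρ = cc.1 := ⟨_, rfl⟩
  have hρu : ρ < u := by rw [hρ]; exact cc.2
  have hcol : ∀ n ∈ A, Nat.count Nat.Prime n % u = ρ := by
    intro n hn
    have := hcc n hn
    rw [hρ, ← this]
  obtain ⟨j₀, hj₀⟩ : ∃ j₀ : ℕ, j₀ = (a + u * (a + 1) - ρ) % u := ⟨_, rfl⟩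
  have hj₀u : j₀ < u := by rw [hj₀]; exact Nat.mod_lt _ hu
  obtain ⟨ee, hee⟩ : ∃ ee : ℕ → ℕ, ee = fun j =>
    if h : j < H.card then H.orderEmbOfFin rfl ⟨j, h⟩ else 0 := ⟨_, rfl⟩
  have heej : ∀ j (h : j < H.card), ee j = H.orderEmbOfFin rfl ⟨j, h⟩ := by
    intro j h
    rw [hee]
    exact dif_pos h
  have hmono : ∀ i j, i < j → j < H.card → ee i < ee j := by
    intro i j hij hj
    rw [heej i (by omega), heej j hj]
    apply (H.orderEmbOfFin rfl).strictMono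
    rw [Fin.mk_lt_mk]
    exact hij
  have hJ : ∀ j ≤ r, j₀ + u * j < H.card := by
    intro j hj
    have h1 : u * j ≤ u * r := Nat.mul_le_mul_left _ hj
    have h2 : u * (r + 2) = u * r + u + u := by ring
    omega
  have hmem : ∀ j ≤ r, ee (j₀ + u * j) ∈ H := by
    intro j hj
    rw [heej _ (hJ j hj)]
    exact Finset.orderEmbOfFin_mem H rfl _
  have hle : ∀ j ≤ r, ee j₀ ≤ ee (j₀ + u * j) := by
    intro j hj
    rcases Nat.eq_zero_or_pos j with h0 | h0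
    · rw [h0, mul_zero, add_zero]
    · have h1 : 0 < u * j := Nat.mul_pos hu h0
      exact (hmono _ _ (by omega) (hJ j hj)).le
  refine ⟨fun j => ee (j₀ + u * j) - ee j₀, T.image (fun n => n + ee j₀), by simp, ?_, ?_, ?_, ?_⟩
  · intro j hj
    have h1 := hmono (j₀ + u * j) (j₀ + u * (j + 1)) (by rw [mul_add]; omega) (hJ (j + 1) (by omega))
    have h2 := hle j (by omega)
    simp only
    omega
  · have h1 := hHC _ (hmem r le_rfl)
    simp only
    omega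
  · rw [card_image_of_injective _ (fun i j hij => by
      have : i + ee j₀ = j + ee j₀ := hij
      omega)]
    exact hT1
  · intro s hs
    rw [mem_image] at hs
    obtain ⟨n, hn, rfl⟩ := hs
    obtain ⟨D, hD1, hD2, hD3⟩ := hT2 n hn
    refine ⟨D, hD1, hD2, ?_⟩
    intro i hi
    obtain ⟨x, hx⟩ : ∃ x, x = n + i * D := ⟨_, rfl⟩
    have hxA : x ∈ A := by
      rw [hx]
      exact hD3 i (by omega)
    obtain ⟨g1, g2, g3, g4⟩ := hA2 x hxA
    have hxs : n + ee j₀ + i * D = x + ee j₀ := by rw [hx]; ring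
    rw [hxs]
    obtain ⟨c, hc⟩ : ∃ c, c = Nat.count Nat.Prime x := ⟨_, rfl⟩
    have hcρ : c % u = ρ := by rw [hc]; exact hcol x hxA
    -- there are many primes below
    have hca : a + u ≤ c := by
      by_contra hcon
      push Not at hcon
      rw [hc] at hcon
      have h6 : x ≤ Nat.nth Nat.Prime (a + u) := by
        by_contra h7
        push Not at h7
        have h8 := Nat.count_strict_mono (Nat.prime_nth_prime (a + u)) h7
        rw [Nat.count_nth_of_infinite hinf] at h8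
        omega
      omega
    -- the index
    have hdiv : u ∣ c + j₀ - a := by
      have h1 : (c + j₀) % u = a % u := by
        have h2 : ρ + (a + u * (a + 1) - ρ) = a + u * (a + 1) := by
          have : u ≤ u * (a + 1) := Nat.le_mul_of_pos_right _ (by omega)
          omega
        calc (c + j₀) % u = (c % u + j₀ % u) % u := Nat.add_mod _ _ _
          _ = (ρ % u + (a + u * (a + 1) - ρ) % u) % u := by
              rw [hcρ, hj₀, Nat.mod_mod, Nat.mod_eq_of_lt hρu]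
          _ = (ρ + (a + u * (a + 1) - ρ)) % u := (Nat.add_mod _ _ _).symm
          _ = a % u := by rw [h2, Nat.add_mul_mod_self_left]
      exact (Nat.modEq_iff_dvd' (by omega)).1 h1.symm
    obtain ⟨k, hk⟩ := hdiv
    refine ⟨k, ?_⟩
    intro j hj
    have hidx : u * (k + j) + a = c + (j₀ + u * j) := by
      have h1 : u * (k + j) = u * k + u * j := by ring
      omega
    have hsum : x + ee j₀ + (ee (j₀ + u * j) - ee j₀) = x + ee (j₀ + u * j) := by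
      have := hle j hj
      omega
    have hHH := hmem j hj
    have hb := hHC _ hHH
    have hb' : ee (j₀ + u * j) < C := Finset.mem_range.1 (hH hHH)
    show Nat.nth Nat.Prime (u * (k + j) + a) = x + ee j₀ + (ee (j₀ + u * j) - ee j₀) ∧
      N < x + ee j₀ + (ee (j₀ + u * j) - ee j₀) ∧ x + ee j₀ + (ee (j₀ + u * j) - ee j₀) ≤ 2 * N ∧
      x + ee j₀ + (ee (j₀ + u * j) - ee j₀) ≡ e [MOD q] ∧
      AP R ((N : ℝ) ^ δ) (f.eval ((x + ee j₀ + (ee (j₀ + u * j) - ee j₀) : ℕ) : ℤ))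
    rw [hsum]
    refine ⟨?_, by omega, by omega, (g4 _ hHH).1, (g4 _ hHH).2⟩
    rw [hidx, hc, nth_eq x C H hHC g3 _ (hJ j hj), ← heej]

end Pool.Agent.V8H34.PR
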